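import Mathlib

set_option autoImplicit false

/-!
Laplace transforms of bounded functions on the half line.
-/

namespace Pool.Agent.Q296.NA

open Complex MeasureTheory Filter Topology Set FourierTransform

/-- the Laplace transform -/
noncomputable def LL (f : ℝ → ℂ) (p : ℂ) : ℂ := ∫ u in Ioi (0 : ℝ), f u * cexp (-(p * u))

theorem norm_exp (p : ℂ) (u : ℝ) : ‖cexp (-(p * u))‖ = Real.exp (-(p.re * u)) := by
  rw [Complex.norm_exp]
  congr 1
  simp

theorem exp_int {p : ℂ} (hp : 0 < p.re) (M : ℝ) :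
    IntegrableOn (fun u : ℝ => M * Real.exp (-(p.re * u))) (Ioi 0) := by
  have h := (integrableOn_exp_mul_Ioi (a := -p.re) (by linarith) 0).const_mul M
  refine h.congr (Eventually.of_forall fun u => ?_)
  simp only [neg_mul]

theorem LL_int {f : ℝ → ℂ} (hf : AEStronglyMeasurable f (volume.restrict (Ioi 0))) {M : ℝ}
    (hM : ∀ u : ℝ, 0 < u → ‖f u‖ ≤ M) {p : ℂ} (hp : 0 < p.re) :
    IntegrableOn (fun u : ℝ => f u * cexp (-(p * u))) (Ioi 0) := by
  refine Integrable.mono' (exp_int hp M) (hf.mul (Continuous.aestronglyMeasurable (by fun_prop))) ?_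
  refine (ae_restrict_mem measurableSet_Ioi).mono fun u hu => ?_
  rw [norm_mul, norm_exp]
  exact mul_le_mul_of_nonneg_right (hM u hu) (Real.exp_pos _).le

theorem int_exp_val {p : ℂ} (hp : 0 < p.re) (M : ℝ) :
    ∫ u in Ioi (0 : ℝ), M * Real.exp (-(p.re * u)) = M / p.re := by
  rw [integral_const_mul]
  have h := integral_exp_mul_Ioi (a := -p.re) (by linarith) 0
  have h2 : ∫ u in Ioi (0 : ℝ), Real.exp (-(p.re * u)) = 1 / p.re := by
    simp_rw [← neg_mul]
    rw [h]
    simp
  rw [h2]
  ring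

theorem LL_exp {p k : ℂ} (h : 0 < (p + k).re) : LL (fun u => cexp (-(k * u))) p = 1 / (p + k) := by
  unfold LL
  have h1 : ∀ u : ℝ, cexp (-(k * u)) * cexp (-(p * u)) = cexp (-(p + k) * u) := by
    intro u
    rw [← Complex.exp_add]
    congr 1
    ring
  simp_rw [h1]
  rw [integral_exp_mul_complex_Ioi (by rw [Complex.neg_re]; linarith)]
  simp only [ofReal_zero, mul_zero, Complex.exp_zero, neg_div_neg_eq]

theorem LL_add {f g : ℝ → ℂ} {p : ℂ} (hf : IntegrableOn (fun u : ℝ => f u * cexp (-(p * u))) (Ioi 0))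
    (hg : IntegrableOn (fun u : ℝ => g u * cexp (-(p * u))) (Ioi 0)) :
    LL (fun u => f u + g u) p = LL f p + LL g p := by
  unfold LL
  rw [← integral_add hf hg]
  refine integral_congr_ae (Eventually.of_forall fun u => ?_)
  simp only
  ring

theorem LL_sub {f g : ℝ → ℂ} {p : ℂ} (hf : IntegrableOn (fun u : ℝ => f u * cexp (-(p * u))) (Ioi 0))
    (hg : IntegrableOn (fun u : ℝ => g u * cexp (-(p * u))) (Ioi 0)) :
    LL (fun u => f u - g u) p = LL f p - LL g p := by
  unfold LL
  rw [← integral_sub hf hg]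
  refine integral_congr_ae (Eventually.of_forall fun u => ?_)
  simp only
  ring

theorem LL_const_mul (f : ℝ → ℂ) (c p : ℂ) : LL (fun u => c * f u) p = c * LL f p := by
  unfold LL
  rw [← integral_const_mul]
  refine integral_congr_ae (Eventually.of_forall fun u => ?_)
  simp only
  ring

theorem LL_tsum {ι : Type*} [Countable ι] {f : ι → ℝ → ℂ} {c : ι → ℝ}
    (hf : ∀ i, AEStronglyMeasurable (f i) (volume.restrict (Ioi 0)))
    (hc : ∀ i, ∀ u : ℝ, 0 < u → ‖f i u‖ ≤ c i) (hs : Summable c) {p : ℂ} (hp : 0 < p.re) :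
    LL (fun u => ∑' i, f i u) p = ∑' i, LL (f i) p := by
  have h1 := hasSum_integral_of_summable_integral_norm (μ := volume.restrict (Ioi (0 : ℝ)))
    (F := fun i (u : ℝ) => f i u * cexp (-(p * u))) (fun i => LL_int (hf i) (hc i) hp) ?_
  · unfold LL
    rw [h1.tsum_eq]
    refine integral_congr_ae (Eventually.of_forall fun u => ?_)
    simp only
    rw [tsum_mul_right]
  · refine Summable.of_nonneg_of_le (fun i => integral_nonneg fun u => norm_nonneg _) (fun i => ?_)
      (hs.mul_right (1 / p.re))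
    have h2 : ∫ u in Ioi (0 : ℝ), ‖f i u * cexp (-(p * u))‖ ≤
        ∫ u in Ioi (0 : ℝ), c i * Real.exp (-(p.re * u)) := by
      refine setIntegral_mono_on (LL_int (hf i) (hc i) hp).norm (exp_int hp _) measurableSet_Ioi
        fun u hu => ?_
      rw [norm_mul, norm_exp]
      exact mul_le_mul_of_nonneg_right (hc i u hu) (Real.exp_pos _).le
    rw [int_exp_val hp] at h2
    rw [mul_one_div]
    exact h2

/-- uniqueness -/
theorem LL_unique {f : ℝ → ℂ} {M : ℝ} (hm : AEStronglyMeasurable f (volume.restrict (Ioi 0)))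
    (hM : ∀ u : ℝ, 0 < u → ‖f u‖ ≤ M) (hc : ∀ u : ℝ, 0 < u → ContinuousAt f u)
    (h0 : ∀ y : ℝ, LL f (1 + y * I) = 0) : ∀ u : ℝ, 0 < u → f u = 0 := by
  intro u hu
  set g : ℝ → ℂ := (Ioi (0 : ℝ)).indicator (fun u => f u * cexp (-((1 : ℂ) * u))) with hg
  have hgi : Integrable g := by
    rw [hg, integrable_indicator_iff measurableSet_Ioi]
    exact LL_int hm hM (by simp)
  have hF : 𝓕 g = fun _ => 0 := by
    funext ξ
    rw [Real.fourier_real_eq_integral_exp_smul]
    have h1 := h0 (2 * Real.pi * ξ)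
    unfold LL at h1
    rw [← h1, ← integral_indicator measurableSet_Ioi]
    refine integral_congr_ae (Eventually.of_forall fun v => ?_)
    simp only [hg, smul_eq_mul]
    by_cases hv : v ∈ Ioi (0 : ℝ)
    · rw [indicator_of_mem hv, indicator_of_mem hv, mul_left_comm, ← Complex.exp_add]
      congr 2
      push_cast
      ring
    · rw [indicator_of_notMem hv, indicator_of_notMem hv, mul_zero]
  have hev : g =ᶠ[𝓝 u] fun v => f v * cexp (-((1 : ℂ) * v)) := by
    filter_upwards [Ioi_mem_nhds hu] with v hv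
    rw [hg, indicator_of_mem (show v ∈ Ioi (0 : ℝ) from hv)]
  have hgc : ContinuousAt g u := by
    refine ContinuousAt.congr ?_ hev.symm
    have h2 : Continuous (fun v : ℝ => cexp (-((1 : ℂ) * v))) := by fun_prop
    exact (hc u hu).mul h2.continuousAt
  have h3 := hgi.fourierInv_fourier_eq (by rw [hF]; exact integrable_zero _ _ _) hgc
  rw [hF, Real.fourierInv_eq'] at h3
  simp only [smul_zero, integral_zero] at h3
  have h4 : g u = f u * cexp (-((1 : ℂ) * u)) := hev.self_of_nhds
  rw [h4] at h3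
  exact (mul_eq_zero.1 h3.symm).resolve_right (Complex.exp_ne_zero _)

end Pool.Agent.Q296.NA
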