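import Mathlib
import Pool.Agent.Q296.NA.Lt
import Pool.Agent.H370R2.Digamma

set_option autoImplicit false

/-!
The inverse Laplace transforms of the archimedean terms.
-/

namespace Pool.Agent.Q296.NA

open Complex MeasureTheory Filter Topology Set

/-- `log ((n + 2) / (n + 1))` -/
noncomputable def lr (n : ℕ) : ℝ := Real.log ((n + 2 : ℝ) / (n + 1))

/-- the constant parts -/
noncomputable def al (n : ℕ) : ℝ := lr n - 2 / (2 * n + 5)

/-- the coefficients of `e^(-u)` -/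
noncomputable def be (n : ℕ) : ℝ := lr n - 1 / (n + 2)

/-- the coefficients of the small exponentials -/
noncomputable def ga (n : ℕ) : ℝ := 2 / ((2 * n + 4) * (2 * n + 5))

/-- the term -/
noncomputable def Tn (n : ℕ) (u : ℝ) : ℂ :=
  (al n : ℂ) - (be n : ℂ) * cexp (-(1 * u)) - (ga n : ℂ) * cexp (-((2 * n + 5) * u))

theorem be_le (n : ℕ) : |be n| ≤ 1 / ((n : ℝ) + 1) ^ 2 := by
  have h := H370.DG.log_ratio_bounds n
  have e : be n = Real.log ((n + 2 : ℝ) / (n + 1)) - 1 / (n + 2) := rfl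
  rw [e]
  refine h.trans ?_
  have hn : (0 : ℝ) ≤ n := Nat.cast_nonneg n
  apply one_div_le_one_div_of_le (by positivity)
  nlinarith

theorem al_le (n : ℕ) : |al n| ≤ 2 / ((n : ℝ) + 1) ^ 2 := by
  have h := be_le n
  have hn : (0 : ℝ) ≤ n := Nat.cast_nonneg n
  have e : al n = be n + 1 / ((n + 2) * (2 * n + 5)) := by
    unfold al be
    field_simp
    ring
  rw [e]
  have h2 : |1 / (((n : ℝ) + 2) * (2 * n + 5))| ≤ 1 / ((n : ℝ) + 1) ^ 2 := by
    rw [abs_of_pos (by positivity)]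
    apply one_div_le_one_div_of_le (by positivity)
    nlinarith
  calc |be n + 1 / (((n : ℝ) + 2) * (2 * n + 5))| ≤ |be n| + |1 / (((n : ℝ) + 2) * (2 * n + 5))| :=
        abs_add_le _ _
    _ ≤ 1 / ((n : ℝ) + 1) ^ 2 + 1 / ((n : ℝ) + 1) ^ 2 := add_le_add h h2
    _ = _ := by ring

theorem ga_nonneg (n : ℕ) : 0 ≤ ga n := by unfold ga; positivity

theorem ga_le (n : ℕ) : ga n ≤ 1 / ((n : ℝ) + 1) ^ 2 := by
  unfold ga
  have hn : (0 : ℝ) ≤ n := Nat.cast_nonneg n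
  rw [div_le_div_iff₀ (by positivity) (by positivity)]
  nlinarith

theorem exp_le_one {k : ℝ} (hk : 0 ≤ k) {u : ℝ} (hu : 0 ≤ u) : ‖cexp (-((k : ℂ) * u))‖ ≤ 1 := by
  rw [norm_exp, Complex.ofReal_re, Real.exp_le_one_iff]
  have := mul_nonneg hk hu
  linarith

theorem Tn_le (n : ℕ) {u : ℝ} (hu : 0 ≤ u) : ‖Tn n u‖ ≤ 4 * (1 / ((n : ℝ) + 1) ^ 2) := by
  unfold Tn
  have h1 : ‖(al n : ℂ)‖ ≤ 2 / ((n : ℝ) + 1) ^ 2 := by
    rw [Complex.norm_real, Real.norm_eq_abs]; exact al_le n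
  have h2 : ‖(be n : ℂ) * cexp (-(1 * u))‖ ≤ 1 / ((n : ℝ) + 1) ^ 2 := by
    rw [norm_mul, Complex.norm_real, Real.norm_eq_abs]
    have := exp_le_one (k := 1) zero_le_one hu
    rw [Complex.ofReal_one] at this
    calc |be n| * ‖cexp (-(1 * (u : ℂ)))‖ ≤ |be n| * 1 :=
          mul_le_mul_of_nonneg_left this (abs_nonneg _)
      _ ≤ _ := by rw [mul_one]; exact be_le n
  have h3 : ‖(ga n : ℂ) * cexp (-((2 * n + 5) * u))‖ ≤ 1 / ((n : ℝ) + 1) ^ 2 := by
    rw [norm_mul, Complex.norm_real, Real.norm_of_nonneg (ga_nonneg n)]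
    have := exp_le_one (k := 2 * n + 5) (by positivity) hu
    push_cast at this
    calc ga n * ‖cexp (-((2 * (n : ℂ) + 5) * u))‖ ≤ ga n * 1 :=
          mul_le_mul_of_nonneg_left this (ga_nonneg n)
      _ ≤ _ := by rw [mul_one]; exact ga_le n
  calc _ ≤ ‖(al n : ℂ) - (be n : ℂ) * cexp (-(1 * u))‖ + ‖(ga n : ℂ) * cexp (-((2 * n + 5) * u))‖ :=
        norm_sub_le _ _
    _ ≤ (‖(al n : ℂ)‖ + ‖(be n : ℂ) * cexp (-(1 * u))‖) + ‖(ga n : ℂ) * cexp (-((2 * n + 5) * u))‖ := by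
        gcongr
        exact norm_sub_le _ _
    _ ≤ (2 / ((n : ℝ) + 1) ^ 2 + 1 / ((n : ℝ) + 1) ^ 2) + 1 / ((n : ℝ) + 1) ^ 2 := by gcongr
    _ = _ := by ring

theorem const_eq_exp (c : ℂ) : (fun _ : ℝ => c) = fun u : ℝ => c * cexp (-(0 * u)) := by
  funext u
  simp

theorem exp_Lint {p k : ℂ} (hk : 0 ≤ k.re) (hp : 0 < p.re) (c : ℂ) :
    IntegrableOn (fun u : ℝ => (c * cexp (-(k * u))) * cexp (-(p * u))) (Ioi 0) := by
  refine LL_int (M := ‖c‖) (Continuous.aestronglyMeasurable (by fun_prop)) (fun u hu => ?_) hp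
  rw [norm_mul, norm_exp]
  refine mul_le_of_le_one_right (norm_nonneg _) ?_
  rw [Real.exp_le_one_iff]
  have := mul_nonneg hk hu.le
  linarith

theorem LL_cexp {p k : ℂ} (hk : 0 ≤ k.re) (hp : 0 < p.re) (c : ℂ) :
    LL (fun u => c * cexp (-(k * u))) p = c / (p + k) := by
  rw [LL_const_mul, LL_exp (by rw [Complex.add_re]; linarith), mul_one_div]

/-- three exponentials -/
theorem LL_three {p k : ℂ} (hk : 0 ≤ k.re) (hp : 0 < p.re) (a b c : ℂ) :
    LL (fun u => a - b * cexp (-(1 * u)) - c * cexp (-(k * u))) p =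
      a / p - b / (p + 1) - c / (p + k) := by
  have h0 := exp_Lint (k := 0) (by simp) hp a
  have h1 := exp_Lint (k := 1) (by simp) hp b
  have h2 := exp_Lint hk hp c
  have e0 : ∀ u : ℝ, a * cexp (-(0 * u)) = a := fun u => by simp
  have h3 : LL (fun u => a - b * cexp (-(1 * u))) p = a / p - b / (p + 1) := by
    have h4 := LL_sub (f := fun u => a * cexp (-(0 * u))) (g := fun u => b * cexp (-(1 * u))) h0 h1
    rw [LL_cexp (by simp) hp, LL_cexp (by simp) hp, add_zero] at h4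
    simp_rw [e0] at h4
    exact h4
  have h01 : IntegrableOn (fun u : ℝ => (a - b * cexp (-(1 * u))) * cexp (-(p * u))) (Ioi 0) := by
    have := h0.sub h1
    refine this.congr (Eventually.of_forall fun u => ?_)
    simp only [Pi.sub_apply, e0]
    ring
  have h5 := LL_sub (f := fun u => a - b * cexp (-(1 * u))) (g := fun u => c * cexp (-(k * u))) h01 h2
  rw [h3, LL_cexp hk hp] at h5
  exact h5

theorem LL_Tn (n : ℕ) {p : ℂ} (hp : 0 < p.re) :
    LL (Tn n) p = H370.DG.gd n ((p + 1) / 2) / (p * (p + 1)) := by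
  have hn : (0 : ℝ) ≤ n := Nat.cast_nonneg n
  have hk : 0 ≤ ((2 : ℂ) * n + 5).re := by simp; positivity
  have h := LL_three (k := 2 * n + 5) hk hp (al n : ℂ) (be n : ℂ) (ga n : ℂ)
  have e : LL (Tn n) p = LL (fun u => (al n : ℂ) - (be n : ℂ) * cexp (-(1 * u)) -
      (ga n : ℂ) * cexp (-((2 * n + 5) * u))) p := rfl
  rw [e, h]
  have hp0 : p ≠ 0 := by rintro rfl; simp at hp
  have hp1 : p + 1 ≠ 0 := by
    intro h0
    have := congrArg Complex.re h0
    simp at this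
    linarith
  have hpn : p + (2 * n + 5) ≠ 0 := by
    intro h0
    have := congrArg Complex.re h0
    simp at this
    linarith
  have h4 : (2 * (n : ℂ) + 4) ≠ 0 := by
    have : ((2 * (n : ℝ) + 4 : ℝ) : ℂ) ≠ 0 := by
      rw [Complex.ofReal_ne_zero]; positivity
    simpa using this
  have h5 : (2 * (n : ℂ) + 5) ≠ 0 := by
    have : ((2 * (n : ℝ) + 5 : ℝ) : ℂ) ≠ 0 := by
      rw [Complex.ofReal_ne_zero]; positivity
    simpa using this
  have h2 : ((n : ℂ) + 2) ≠ 0 := by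
    intro h0
    apply h4
    linear_combination 2 * h0
  have hs : (p + 1) / 2 + ((n : ℂ) + 2) = (p + (2 * n + 5)) / 2 := by ring
  unfold H370.DG.gd al be ga
  have elr : (Real.log ((n + 2 : ℝ) / (n + 1)) : ℂ) = (lr n : ℂ) := rfl
  rw [elr, hs]
  push_cast
  rw [show (2 * (n : ℂ) + 4) = 2 * ((n : ℂ) + 2) by ring] at h4 ⊢
  field_simp
  ring

end Pool.Agent.Q296.NA
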