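import Mathlib
import Pool.Agent.Q296.NA.Lt
import Pool.Agent.Q239.RN.Lap

set_option autoImplicit false

/-!
The tail integral of the relative error of `ψ`.
-/

namespace Pool.Agent.Q296.NA

open Complex MeasureTheory Filter Topology Set
open Q239.RN (eP eP_meas eP_pnt LT)

theorem eP_le (v : ℝ) : |eP v| ≤ Real.log 4 + 5 := by
  unfold eP
  have h1 := Chebyshev.psi_le_const_mul_self (x := Real.exp v) (Real.exp_pos v).le
  have h2 := Chebyshev.psi_nonneg (Real.exp v)
  have h4 : 0 ≤ Real.log 4 := Real.log_nonneg (by norm_num)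
  have h5 : Real.exp v * Real.exp (-v) = 1 := by rw [← Real.exp_add]; simp
  have h6 : Chebyshev.psi (Real.exp v) * Real.exp (-v) ≤ Real.log 4 + 4 := by
    calc Chebyshev.psi (Real.exp v) * Real.exp (-v)
        ≤ ((Real.log 4 + 4) * Real.exp v) * Real.exp (-v) :=
          mul_le_mul_of_nonneg_right h1 (Real.exp_pos _).le
      _ = _ := by rw [mul_assoc, h5, mul_one]
  have h7 : 0 ≤ Chebyshev.psi (Real.exp v) * Real.exp (-v) := mul_nonneg h2 (Real.exp_pos _).le
  rw [abs_le]
  constructor <;> linarith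

theorem eP_int : IntegrableOn eP (Ioi 0) := by
  obtain ⟨C, hC, h⟩ := eP_pnt 2
  have h1 : IntegrableOn eP (Ioc 0 1) := by
    refine Measure.integrableOn_of_bounded (M := Real.log 4 + 5) (by simp)
      eP_meas.aestronglyMeasurable ?_
    exact Eventually.of_forall fun v => by rw [Real.norm_eq_abs]; exact eP_le v
  have h2 : IntegrableOn eP (Ioi 1) := by
    have h3 : IntegrableOn (fun v : ℝ => C * v ^ (-2 : ℝ)) (Ioi 1) :=
      (integrableOn_Ioi_rpow_of_lt (by norm_num) one_pos).const_mul C
    refine Integrable.mono' h3 eP_meas.aestronglyMeasurable ?_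
    refine (ae_restrict_mem measurableSet_Ioi).mono fun v hv => ?_
    have hv1 : (1 : ℝ) < v := hv
    have h4 := h v hv1.le
    rw [Real.norm_eq_abs, Real.rpow_neg (by linarith)]
    have h5 : v ^ (2 : ℝ) = v ^ 2 := by norm_cast
    rw [h5, ← div_eq_mul_inv]
    exact h4
  have h6 := h1.union h2
  rwa [Ioc_union_Ioi_eq_Ioi zero_le_one] at h6

/-- the tail -/
noncomputable def Kf (u : ℝ) : ℝ := ∫ v in Ioi u, eP v

theorem Kf_eq {u : ℝ} (hu : 0 ≤ u) : Kf u = Kf 0 - ∫ v in (0 : ℝ)..u, eP v := by
  unfold Kf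
  rw [intervalIntegral.integral_of_le hu]
  have h1 : ∫ v in Ioi (0 : ℝ), eP v = (∫ v in Ioc (0 : ℝ) u, eP v) + ∫ v in Ioi u, eP v := by
    rw [← setIntegral_union (Ioc_disjoint_Ioi le_rfl) measurableSet_Ioi
      (eP_int.mono_set Ioc_subset_Ioi_self) (eP_int.mono_set (Ioi_subset_Ioi hu)),
      Ioc_union_Ioi_eq_Ioi hu]
  rw [h1]
  ring

theorem eP_ii (a b : ℝ) : IntervalIntegrable eP volume a b := by
  rw [intervalIntegrable_iff]
  refine Measure.integrableOn_of_bounded (M := Real.log 4 + 5) (by simp)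
    eP_meas.aestronglyMeasurable ?_
  exact Eventually.of_forall fun v => by rw [Real.norm_eq_abs]; exact eP_le v

theorem Kf_cont {u : ℝ} (hu : 0 < u) : ContinuousAt Kf u := by
  have h1 : Continuous (fun u : ℝ => Kf 0 - ∫ v in (0 : ℝ)..u, eP v) :=
    continuous_const.sub (intervalIntegral.continuous_primitive eP_ii 0)
  refine h1.continuousAt.congr ?_
  filter_upwards [Ioi_mem_nhds hu] with v hv
  exact (Kf_eq (le_of_lt hv)).symm

theorem Kf_le {u : ℝ} (hu : 0 ≤ u) : |Kf u| ≤ ∫ v in Ioi (0 : ℝ), |eP v| := by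
  unfold Kf
  rw [← Real.norm_eq_abs]
  refine (norm_integral_le_integral_norm _).trans ?_
  refine setIntegral_mono_set eP_int.norm (Eventually.of_forall fun v => norm_nonneg _) ?_
  exact (Ioi_subset_Ioi hu).eventuallyLE

theorem Kf_lim : Tendsto Kf atTop (𝓝 0) := by
  have h1 := intervalIntegral_tendsto_integral_Ioi 0 eP_int tendsto_id
  have h2 : Tendsto (fun u : ℝ => Kf 0 - ∫ v in (0 : ℝ)..u, eP v) atTop (𝓝 (Kf 0 - Kf 0)) :=
    tendsto_const_nhds.sub h1
  rw [sub_self] at h2
  refine h2.congr' ?_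
  filter_upwards [eventually_ge_atTop 0] with u hu
  exact (Kf_eq hu).symm

theorem Kf_meas : AEStronglyMeasurable (fun u : ℝ => (Kf u : ℂ)) (volume.restrict (Ioi 0)) := by
  refine ContinuousOn.aestronglyMeasurable (fun u hu => ?_) measurableSet_Ioi
  exact (Complex.continuous_ofReal.continuousAt.comp (Kf_cont hu)).continuousWithinAt

theorem LL_Kf {p : ℂ} (hp : 0 < p.re) :
    LL (fun u => (Kf u : ℂ)) p = ((Kf 0 : ℂ) - LT p) / p := by
  have hp0 : p ≠ 0 := by rintro rfl; simp at hp
  set μ : Measure ℝ := volume.restrict (Ioi (0 : ℝ)) with hμ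
  -- the kernel
  set F : ℝ → ℝ → ℂ := fun u v => if u < v then (eP v : ℂ) * cexp (-(p * u)) else 0 with hF
  have hFm : AEStronglyMeasurable (Function.uncurry F) (μ.prod μ) := by
    have h1 : Measurable (Function.uncurry F) := by
      have h2 : Measurable (fun z : ℝ × ℝ => (eP z.2 : ℂ) * cexp (-(p * z.1))) :=
        (Complex.measurable_ofReal.comp (eP_meas.comp measurable_snd)).mul (by fun_prop)
      exact Measurable.ite (measurableSet_lt measurable_fst measurable_snd) h2 measurable_const
    exact h1.aestronglyMeasurable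
  have hFi : Integrable (Function.uncurry F) (μ.prod μ) := by
    have h1 : Integrable (fun z : ℝ × ℝ => Real.exp (-(p.re * z.1)) * |eP z.2|) (μ.prod μ) := by
      have e1 : Integrable (fun u : ℝ => Real.exp (-(p.re * u))) μ := by
        have := exp_int hp 1
        simp only [one_mul] at this
        exact this
      exact e1.mul_prod (eP_int.norm)
    refine h1.mono' hFm (Eventually.of_forall fun z => ?_)
    simp only [Function.uncurry, hF]
    split_ifs
    · rw [norm_mul, norm_exp, Complex.norm_real, Real.norm_eq_abs, mul_comm]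
    · rw [norm_zero]; positivity
  have hswap := integral_integral_swap (μ := μ) (ν := μ) (f := F) hFi
  have hL : ∫ u, ∫ v, F u v ∂μ ∂μ = LL (fun u => (Kf u : ℂ)) p := by
    unfold LL
    refine setIntegral_congr_fun measurableSet_Ioi fun u hu => ?_
    have hu0 : (0 : ℝ) < u := hu
    have h1 : ∀ v : ℝ, F u v = (Ioi u).indicator (fun v => (eP v : ℂ) * cexp (-(p * u))) v := by
      intro v
      simp only [hF]
      by_cases hv : u < v
      · rw [if_pos hv, indicator_of_mem (show v ∈ Ioi u from hv)]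
      · rw [if_neg hv, indicator_of_notMem (show v ∉ Ioi u from hv)]
    simp_rw [h1]
    rw [integral_indicator measurableSet_Ioi, hμ, Measure.restrict_restrict measurableSet_Ioi,
      inter_eq_left.2 (Ioi_subset_Ioi hu0.le), integral_mul_const]
    unfold Kf
    rw [integral_complex_ofReal]
  have hR : ∫ v, ∫ u, F u v ∂μ ∂μ = ((Kf 0 : ℂ) - LT p) / p := by
    have h1 : ∀ v ∈ Ioi (0 : ℝ), ∫ u, F u v ∂μ = ((eP v : ℂ) - (eP v : ℂ) * cexp (-(p * v))) / p := by
      intro v hv
      have hv0 : (0 : ℝ) < v := hv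
      have h2 : ∀ u : ℝ, F u v = (Iio v).indicator (fun u : ℝ => (eP v : ℂ) * cexp (-p * u)) u := by
        intro u
        simp only [hF]
        by_cases huv : u < v
        · rw [if_pos huv, indicator_of_mem (show u ∈ Iio v from huv), neg_mul]
        · rw [if_neg huv, indicator_of_notMem (show u ∉ Iio v from huv)]
      simp_rw [h2]
      rw [integral_indicator measurableSet_Iio, hμ, Measure.restrict_restrict measurableSet_Iio,
        inter_comm, Ioi_inter_Iio, integral_const_mul, ← integral_Ioc_eq_integral_Ioo,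
        ← intervalIntegral.integral_of_le hv0.le, integral_exp_mul_complex (neg_ne_zero.2 hp0)]
      simp only [ofReal_zero, mul_zero, Complex.exp_zero, neg_mul]
      field_simp
      ring
    rw [setIntegral_congr_fun measurableSet_Ioi h1]
    have h3 : IntegrableOn (fun v : ℝ => (eP v : ℂ)) (Ioi 0) := eP_int.ofReal
    have h4 : IntegrableOn (fun v : ℝ => (eP v : ℂ) * cexp (-(p * v))) (Ioi 0) :=
      LL_int (f := fun v => (eP v : ℂ)) h3.aestronglyMeasurable (M := Real.log 4 + 5)
        (fun v _ => by rw [Complex.norm_real, Real.norm_eq_abs]; exact eP_le v) hp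
    rw [integral_div, integral_sub h3 h4, integral_complex_ofReal]
    rfl
  rw [← hL, hswap, hR]

end Pool.Agent.Q296.NA
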