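import Mathlib
import Pool.Agent.Q296.NA.Lt
import Pool.Agent.Y23.Zs
import Pool.Agent.Q260.LF.PF
import Pool.Agent.Q260.LF.B6

set_option autoImplicit false

/-!
The sum over the nontrivial zeros and its Laplace transform.
-/

namespace Pool.Agent.Q296.NA

open Complex MeasureTheory Filter Topology Set
open Pool.Agent.Y23
open Pool.Agent.Q260.LF (hk hk_ne hk_summable ng ng_val pf)

/-- the coefficients -/
noncomputable def wt (ρ : Zt) : ℂ := (mu ρ : ℂ) / ((ρ : ℂ) * (1 - (ρ : ℂ)))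

theorem wt_summable : Summable (fun ρ : Zt => ‖wt ρ‖) := by
  have h := (zsummable 0).mul_left 2
  refine Summable.of_norm_bounded_eventually h ?_
  have hfin := finite_low 1
  refine (hfin.subset fun ρ hρ => ?_)
  by_contra hcon
  apply hρ
  have h1 : 1 < |(ρ : ℂ).im| := by
    have h2 : ¬ |(ρ : ℂ).im| ≤ 1 := hcon
    linarith
  show ‖‖wt ρ‖‖ ≤ 2 * ((mu (ρ : ℂ) : ℝ) * (1 / (1 + ((ρ : ℂ).im - 0) ^ 2)))
  rw [norm_norm]
  unfold wt
  rw [norm_div, Complex.norm_natCast, norm_mul]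
  have e1 := Complex.abs_im_le_norm (ρ : ℂ)
  have e2 : |(ρ : ℂ).im| ≤ ‖1 - (ρ : ℂ)‖ := by
    have := Complex.abs_im_le_norm (1 - (ρ : ℂ))
    rwa [Complex.sub_im, Complex.one_im, zero_sub, abs_neg] at this
  have e3 : |(ρ : ℂ).im| * |(ρ : ℂ).im| ≤ ‖(ρ : ℂ)‖ * ‖1 - (ρ : ℂ)‖ :=
    mul_le_mul e1 e2 (abs_nonneg _) (norm_nonneg _)
  have e4 : |(ρ : ℂ).im| * |(ρ : ℂ).im| = (ρ : ℂ).im ^ 2 := by rw [abs_mul_abs_self, sq]
  have e5 : 1 ≤ (ρ : ℂ).im ^ 2 := by rw [← e4]; nlinarith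
  rw [sub_zero, ← mul_assoc, mul_one_div, div_le_div_iff₀ (by nlinarith) (by positivity)]
  have hm : (0 : ℝ) ≤ mu (ρ : ℂ) := Nat.cast_nonneg _
  nlinarith [mul_le_mul_of_nonneg_left e3 hm]

instance : Countable Zt := by
  have h := wt_summable.countable_support
  have hs : Function.support (fun ρ : Zt => ‖wt ρ‖) = univ := by
    rw [eq_univ_iff_forall]
    intro ρ
    rw [Function.mem_support]
    unfold wt
    have h1 := mu_pos (s := (ρ : ℂ)) ρ.2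
    have h2 : ((mu (ρ : ℂ) : ℕ) : ℂ) ≠ 0 := by
      rw [Nat.cast_ne_zero]; omega
    have h3 : (ρ : ℂ) ≠ 0 := by
      intro h0
      have := ρ.2.2.1
      rw [h0] at this
      simp at this
    have h4 : 1 - (ρ : ℂ) ≠ 0 := by
      intro h0
      have := ρ.2.2.2
      have h5 := congrArg Complex.re h0
      simp at h5
      linarith
    exact norm_ne_zero_iff.2 (div_ne_zero h2 (mul_ne_zero h3 h4))
  rw [hs] at h
  exact countable_univ_iff.1 h

/-- the sum over the zeros -/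
noncomputable def Wz (u : ℝ) : ℂ := ∑' ρ : Zt, wt ρ * cexp (-((1 - (ρ : ℂ)) * u))

theorem re_pos (ρ : Zt) : 0 < (1 - (ρ : ℂ)).re := by
  have := ρ.2.2.2
  rw [Complex.sub_re, Complex.one_re]
  linarith

theorem wz_term_le (ρ : Zt) {u : ℝ} (hu : 0 ≤ u) : ‖wt ρ * cexp (-((1 - (ρ : ℂ)) * u))‖ ≤ ‖wt ρ‖ := by
  rw [norm_mul, norm_exp]
  refine mul_le_of_le_one_right (norm_nonneg _) ?_
  rw [Real.exp_le_one_iff]
  have := mul_nonneg (re_pos ρ).le hu
  linarith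

theorem Wz_contOn : ContinuousOn Wz (Ici 0) := by
  refine continuousOn_tsum (u := fun ρ : Zt => ‖wt ρ‖) (fun ρ => ?_) wt_summable fun ρ u hu => ?_
  · exact Continuous.continuousOn (by fun_prop)
  · exact wz_term_le ρ hu

theorem Wz_cont {u : ℝ} (hu : 0 < u) : ContinuousAt Wz u :=
  Wz_contOn.continuousAt (Ici_mem_nhds hu)

theorem Wz_le {u : ℝ} (hu : 0 ≤ u) : ‖Wz u‖ ≤ ∑' ρ : Zt, ‖wt ρ‖ :=
  tsum_of_norm_bounded wt_summable.hasSum fun ρ => wz_term_le ρ hu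

theorem Wz_lim : Tendsto Wz atTop (𝓝 0) := by
  have h := tendsto_tsum_of_dominated_convergence (𝓕 := atTop) (β := Zt) (G := ℂ)
    (f := fun (u : ℝ) (ρ : Zt) => wt ρ * cexp (-((1 - (ρ : ℂ)) * u))) (g := fun _ => 0)
    (bound := fun ρ => ‖wt ρ‖) wt_summable (fun ρ => ?_) ?_
  · rw [tsum_zero] at h
    exact h
  · rw [tendsto_zero_iff_norm_tendsto_zero]
    have h1 : ∀ u : ℝ, ‖wt ρ * cexp (-((1 - (ρ : ℂ)) * u))‖ =
        ‖wt ρ‖ * Real.exp (-((1 - (ρ : ℂ)).re * u)) := fun u => by rw [norm_mul, norm_exp]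
    simp_rw [h1]
    have h2 : Tendsto (fun u : ℝ => -((1 - (ρ : ℂ)).re * u)) atTop atBot := by
      rw [tendsto_neg_atBot_iff]
      exact tendsto_id.const_mul_atTop (re_pos ρ)
    have h3 := (Real.tendsto_exp_atBot.comp h2).const_mul ‖wt ρ‖
    rw [mul_zero] at h3
    exact h3
  · filter_upwards [eventually_ge_atTop 0] with u hu ρ
    exact wz_term_le ρ hu

theorem wt_ng (ρ : Zt) : wt (ng ρ) = wt ρ := by
  unfold wt
  have h1 : mu ((ng ρ : Zt) : ℂ) = mu (ρ : ℂ) := by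
    have e : ng ρ = rfZ (cjZ ρ) := rfl
    rw [e, mu_rfZ]
    exact mu_conj ρ.2
  rw [h1, ng_val]
  congr 1
  ring

theorem LL_Wz {p : ℂ} (hp : 0 < p.re) : LL Wz p = ∑' ρ : Zt, wt ρ / (p + (1 - (ρ : ℂ))) := by
  have h1 := LL_tsum (ι := Zt) (f := fun ρ (u : ℝ) => wt ρ * cexp (-((1 - (ρ : ℂ)) * u)))
    (c := fun ρ => ‖wt ρ‖) (fun ρ => Continuous.aestronglyMeasurable (by fun_prop))
    (fun ρ u hu => wz_term_le ρ hu.le) wt_summable hp
  have e : LL Wz p = LL (fun u => ∑' ρ : Zt, wt ρ * cexp (-((1 - (ρ : ℂ)) * u))) p := rfl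
  rw [e, h1]
  refine tsum_congr fun ρ => ?_
  rw [LL_const_mul, LL_exp (by rw [Complex.add_re]; linarith [re_pos ρ]), mul_one_div]

theorem sum_bound (ρ : Zt) {a : ℂ} (ha : 1 ≤ a.re) : ‖wt ρ / a‖ ≤ ‖wt ρ‖ := by
  rw [norm_div]
  have h1 : 1 ≤ ‖a‖ := ha.trans (Complex.re_le_norm a)
  exact div_le_self (norm_nonneg _) h1

/-- the transform through the partial fractions -/
theorem LL_Wz_eq {p : ℂ} (hp : 1 ≤ p.re) :
    LL Wz p = ((p + 1 / 2) * (∑' ρ : Zt, wt ρ) - ZZ (p + 1 / 2)) / (p * (p + 1)) := by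
  have hp0 : p ≠ 0 := by rintro rfl; simp at hp; linarith
  have hp1 : p + 1 ≠ 0 := by
    intro h0
    have := congrArg Complex.re h0
    simp at this
    linarith
  have hz : 1 < (p + 1 / 2).re := by
    have : (p + 1 / 2).re = p.re + 1 / 2 := by simp
    rw [this]; linarith
  have hws : Summable wt := wt_summable.of_norm
  have hre : ∀ ρ : Zt, 1 ≤ (p + (1 - (ρ : ℂ))).re := fun ρ => by
    rw [Complex.add_re]; linarith [re_pos ρ]
  have hre2 : ∀ ρ : Zt, 1 ≤ (p + (ρ : ℂ)).re := fun ρ => by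
    rw [Complex.add_re]; linarith [ρ.2.2.1]
  have hs1 : Summable (fun ρ : Zt => wt ρ / (p + (1 - (ρ : ℂ)))) :=
    Summable.of_norm_bounded wt_summable fun ρ => sum_bound ρ (hre ρ)
  have hs2 : Summable (fun ρ : Zt => wt ρ / (p + (ρ : ℂ))) :=
    Summable.of_norm_bounded wt_summable fun ρ => sum_bound ρ (hre2 ρ)
  have hsym : ∑' ρ : Zt, wt ρ / (p + (1 - (ρ : ℂ))) = ∑' ρ : Zt, wt ρ / (p + (ρ : ℂ)) := by
    rw [← (ng).tsum_eq (fun ρ : Zt => wt ρ / (p + (ρ : ℂ)))]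
    refine tsum_congr fun ρ => ?_
    rw [wt_ng, ng_val]
  have h2 : 2 * LL Wz p = ∑' ρ : Zt, (wt ρ / (p + (1 - (ρ : ℂ))) + wt ρ / (p + (ρ : ℂ))) := by
    rw [hs1.tsum_add hs2, ← hsym, LL_Wz (by linarith)]
    ring
  have hterm : ∀ ρ : Zt, wt ρ / (p + (1 - (ρ : ℂ))) + wt ρ / (p + (ρ : ℂ)) =
      (2 / (p * (p + 1))) * ((p + 1 / 2) * wt ρ - (mu ρ : ℂ) * hk (p + 1 / 2) ((ρ : ℂ) - 1 / 2)) := by
    intro ρ
    have hne := hk_ne (z := p + 1 / 2) (ζ := (ρ : ℂ) - 1 / 2) (by linarith [half_re ρ])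
    have ha : p + (1 - (ρ : ℂ)) ≠ 0 := by
      intro h0
      have := hre ρ
      rw [h0] at this
      simp at this
      linarith
    have hb : p + (ρ : ℂ) ≠ 0 := by
      intro h0
      have := hre2 ρ
      rw [h0] at this
      simp at this
      linarith
    have hρ : (ρ : ℂ) ≠ 0 := by
      intro h0
      have := ρ.2.2.1
      rw [h0] at this
      simp at this
    have hρ1 : 1 - (ρ : ℂ) ≠ 0 := by
      intro h0
      have := re_pos ρ
      rw [h0] at this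
      simp at this
    have hfac : (p + 1 / 2) ^ 2 - ((ρ : ℂ) - 1 / 2) ^ 2 = (p + (1 - (ρ : ℂ))) * (p + (ρ : ℂ)) := by
      ring
    unfold hk wt
    rw [hfac]
    field_simp
    ring
  simp_rw [hterm] at h2
  have hs3 : Summable (fun ρ : Zt => (p + 1 / 2) * wt ρ) := hws.mul_left _
  have hs4 : Summable (fun ρ : Zt => (mu ρ : ℂ) * hk (p + 1 / 2) ((ρ : ℂ) - 1 / 2)) :=
    (hk_summable hz).of_norm
  rw [tsum_mul_left, hs3.tsum_sub hs4, tsum_mul_left, ← pf hz] at h2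
  have h3 : LL Wz p = (2 * LL Wz p) / 2 := by ring
  rw [h3, h2]
  field_simp

end Pool.Agent.Q296.NA
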