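import Mathlib
import Pool.Agent.Q204.NA.Spec
import Pool.Agent.Q296.NA.Ker
import Pool.Agent.Q296.NA.Kf
import Pool.Agent.Q296.NA.Wz

set_option autoImplicit false

/-!
The averaged explicit formula.
-/

namespace Pool.Agent.Q296.NA

open Complex MeasureTheory Filter Topology Set
open Pool.Agent.Y23
open Q239.RN (eP eP_meas eP_pnt LT Gh LT_eq_Gh_right)

theorem gh_eq {p : ℂ} (hp : 0 < p.re) :
    Gh p = -(deriv riemannZeta (p + 1) / riemannZeta (p + 1)) / (p + 1) - 1 / p := by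
  have hp0 : p ≠ 0 := by rintro rfl; simp at hp
  have hs1 : 1 < (p + 1).re := by simp; linarith
  have hp1 : p + 1 ≠ 0 := by
    intro h0
    have := congrArg Complex.re h0
    simp at this
    linarith
  have hne : p + 1 ≠ 1 := by
    intro h
    apply hp0
    linear_combination h
  have hd : deriv riemannZeta₁ (p + 1) = riemannZeta (p + 1) + p * deriv riemannZeta (p + 1) := by
    have e1 : riemannZeta₁ =ᶠ[𝓝 (p + 1)] fun z => (z - 1) * riemannZeta z := by
      filter_upwards [isOpen_ne.mem_nhds hne] with z hz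
      exact Q239.RN.Z1_ne hz
    rw [e1.deriv_eq]
    have e2 : HasDerivAt (fun z : ℂ => (z - 1) * riemannZeta z)
        (1 * riemannZeta (p + 1) + (p + 1 - 1) * deriv riemannZeta (p + 1)) (p + 1) :=
      ((hasDerivAt_id' (p + 1)).sub_const 1).mul (differentiableAt_riemannZeta hne).hasDerivAt
    rw [e2.deriv]
    ring
  have hZ : riemannZeta₁ (p + 1) = p * riemannZeta (p + 1) := by
    rw [Q239.RN.Z1_ne hne]; ring
  have hz0 : riemannZeta (p + 1) ≠ 0 := riemannZeta_ne_zero_of_one_le_re hs1.le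
  unfold Gh
  rw [add_comm 1 p, hd, hZ]
  field_simp
  ring

theorem yl_eq {p : ℂ} (hp : 1 ≤ p.re) :
    YL (p + 1 / 2) = 1 / p - (Real.log Real.pi : ℂ) / 2 - 1 / (p + 3) +
      1 / 2 * ∑' n, H370.DG.gd n ((p + 1) / 2) := by
  have hp0 : p ≠ 0 := by rintro rfl; simp at hp; linarith
  have hp1 : p + 1 ≠ 0 := by
    intro h0
    have := congrArg Complex.re h0
    simp at this
    linarith
  have hp3 : p + 3 ≠ 0 := by
    intro h0
    have := congrArg Complex.re h0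
    simp at this
    linarith
  have hs : 0 < (p + 1).re := by simp; linarith
  have hs2 : 0 < ((p + 1) / 2).re := by
    have : ((p + 1) / 2).re = (p.re + 1) / 2 := by simp
    rw [this]; linarith
  unfold YL
  have e1 : 1 / 2 + (p + 1 / 2) = p + 1 := by ring
  rw [e1, Pool.Agent.Q260.LF.logDeriv_Gammaℝ hs, H370.DG.logDeriv_Gamma hs2]
  have e2 : 4 * (p + 1 / 2) ^ 2 - 1 = 4 * (p * (p + 1)) := by ring
  have e3 : (p + 1) / 2 + 1 = (p + 3) / 2 := by ring
  rw [e2, e3]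
  field_simp
  ring

/-- the explicit function -/
noncomputable def Ec (a b c : ℂ) (u : ℝ) : ℂ :=
  a - b * cexp (-(1 * u)) - c * cexp (-(3 * u)) - 1 / 2 * ∑' n, Tn n u

theorem sum_inv : Summable (fun n : ℕ => 4 * (1 / ((n : ℝ) + 1) ^ 2)) :=
  H370.DG.summable_inv_sq.mul_left 4

theorem Tn_cont (n : ℕ) : Continuous (Tn n) := by
  unfold Tn
  fun_prop

theorem tsumT_contOn : ContinuousOn (fun u : ℝ => ∑' n, Tn n u) (Ici 0) :=
  continuousOn_tsum (u := fun n : ℕ => 4 * (1 / ((n : ℝ) + 1) ^ 2))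
    (fun n => (Tn_cont n).continuousOn) sum_inv fun n _ hu => Tn_le n hu

theorem tsumT_le {u : ℝ} (hu : 0 ≤ u) : ‖∑' n, Tn n u‖ ≤ ∑' n : ℕ, 4 * (1 / ((n : ℝ) + 1) ^ 2) :=
  tsum_of_norm_bounded sum_inv.hasSum fun n => Tn_le n hu

theorem Ec_cont (a b c : ℂ) {u : ℝ} (hu : 0 < u) : ContinuousAt (Ec a b c) u := by
  unfold Ec
  have h1 : ContinuousAt (fun u : ℝ => ∑' n, Tn n u) u := tsumT_contOn.continuousAt (Ici_mem_nhds hu)
  have h2 : Continuous (fun u : ℝ => a - b * cexp (-(1 * u)) - c * cexp (-(3 * u))) := by fun_prop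
  exact h2.continuousAt.sub (continuousAt_const.mul h1)

theorem three_le (a b c : ℂ) {u : ℝ} (hu : 0 ≤ u) :
    ‖a - b * cexp (-(1 * u)) - c * cexp (-(3 * u))‖ ≤ ‖a‖ + ‖b‖ + ‖c‖ := by
  have h1 : ‖b * cexp (-(1 * (u : ℂ)))‖ ≤ ‖b‖ := by
    have := exp_le_one (k := 1) zero_le_one hu
    rw [Complex.ofReal_one] at this
    rw [norm_mul]
    exact mul_le_of_le_one_right (norm_nonneg _) this
  have h2 : ‖c * cexp (-(3 * (u : ℂ)))‖ ≤ ‖c‖ := by
    have := exp_le_one (k := 3) (by norm_num) hu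
    rw [norm_mul]
    exact mul_le_of_le_one_right (norm_nonneg _) (by simpa using this)
  calc _ ≤ ‖a - b * cexp (-(1 * u))‖ + ‖c * cexp (-(3 * u))‖ := norm_sub_le _ _
    _ ≤ (‖a‖ + ‖b * cexp (-(1 * u))‖) + ‖c * cexp (-(3 * u))‖ := by
        gcongr
        exact norm_sub_le _ _
    _ ≤ _ := by gcongr

theorem Ec_le (a b c : ℂ) {u : ℝ} (hu : 0 ≤ u) :
    ‖Ec a b c u‖ ≤ ‖a‖ + ‖b‖ + ‖c‖ + ∑' n : ℕ, 4 * (1 / ((n : ℝ) + 1) ^ 2) := by
  unfold Ec
  refine (norm_sub_le _ _).trans (add_le_add (three_le a b c hu) ?_)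
  rw [norm_mul]
  have h1 := tsumT_le hu
  have h2 : ‖(1 / 2 : ℂ)‖ = 1 / 2 := by norm_num
  rw [h2]
  linarith [norm_nonneg (∑' n, Tn n u)]

theorem LL_Ec (a b c : ℂ) {p : ℂ} (hp : 0 < p.re) :
    LL (Ec a b c) p = a / p - b / (p + 1) - c / (p + 3) -
      1 / 2 * ((∑' n, H370.DG.gd n ((p + 1) / 2)) / (p * (p + 1))) := by
  have hm : AEStronglyMeasurable (fun u : ℝ => ∑' n, Tn n u) (volume.restrict (Ioi (0 : ℝ))) :=
    (tsumT_contOn.mono Ioi_subset_Ici_self).aestronglyMeasurable measurableSet_Ioi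
  have h1 : LL (fun u => 1 / 2 * ∑' n, Tn n u) p =
      1 / 2 * ((∑' n, H370.DG.gd n ((p + 1) / 2)) / (p * (p + 1))) := by
    rw [LL_const_mul]
    congr 1
    rw [LL_tsum (fun n => (Tn_cont n).aestronglyMeasurable) (fun n u hu => Tn_le n hu.le) sum_inv hp,
      ← tsum_div_const]
    exact tsum_congr fun n => LL_Tn n hp
  have hi1 : IntegrableOn (fun u : ℝ => (a - b * cexp (-(1 * u)) - c * cexp (-(3 * u))) *
      cexp (-(p * u))) (Ioi 0) :=
    LL_int (f := fun u : ℝ => a - b * cexp (-(1 * u)) - c * cexp (-(3 * u)))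
      (Continuous.aestronglyMeasurable (by fun_prop)) (fun u hu => three_le a b c hu.le) hp
  have hi2 : IntegrableOn (fun u : ℝ => (1 / 2 * ∑' n, Tn n u) * cexp (-(p * u))) (Ioi 0) := by
    refine LL_int (f := fun u : ℝ => 1 / 2 * ∑' n, Tn n u) (hm.const_mul _)
      (M := ∑' n : ℕ, 4 * (1 / ((n : ℝ) + 1) ^ 2)) (fun u hu => ?_) hp
    rw [norm_mul]
    have h1 := tsumT_le hu.le
    have h2 : ‖(1 / 2 : ℂ)‖ = 1 / 2 := by norm_num
    rw [h2]
    linarith [norm_nonneg (∑' n, Tn n u)]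
  have h2 := LL_sub hi1 hi2
  rw [h1, LL_three (k := 3) (by norm_num) hp] at h2
  exact h2

/-- the identity -/
theorem main_eq : ∃ a b c : ℂ, ∀ u : ℝ, 0 < u → (Kf u : ℂ) + Wz u = Ec a b c u := by
  set A0 : ℂ := ∑' ρ : Zt, wt ρ with hA0
  set lp : ℂ := (Real.log Real.pi : ℂ) with hlp
  refine ⟨(Kf 0 : ℂ) + A0 / 2 + (1 + lp / 2) + 1 / 3, -(A0 / 2) + (1 + lp / 2) + 1 / 2, -(1 / 6), ?_⟩
  set a : ℂ := (Kf 0 : ℂ) + A0 / 2 + (1 + lp / 2) + 1 / 3 with ha
  set b : ℂ := -(A0 / 2) + (1 + lp / 2) + 1 / 2 with hb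
  set M1 : ℝ := ∫ v in Ioi (0 : ℝ), |eP v| with hM1
  set M2 : ℝ := ∑' ρ : Zt, ‖wt ρ‖ with hM2
  set M3 : ℝ := ‖a‖ + ‖b‖ + ‖(-(1 / 6) : ℂ)‖ + ∑' n : ℕ, 4 * (1 / ((n : ℝ) + 1) ^ 2) with hM3
  have bK : ∀ u : ℝ, 0 < u → ‖(Kf u : ℂ)‖ ≤ M1 := fun u hu => by
    rw [Complex.norm_real, Real.norm_eq_abs]; exact Kf_le hu.le
  have mW : AEStronglyMeasurable Wz (volume.restrict (Ioi (0 : ℝ))) :=
    (Wz_contOn.mono Ioi_subset_Ici_self).aestronglyMeasurable measurableSet_Ioi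
  have mE : AEStronglyMeasurable (Ec a b (-(1 / 6))) (volume.restrict (Ioi (0 : ℝ))) :=
    ContinuousOn.aestronglyMeasurable (fun u hu => (Ec_cont _ _ _ hu).continuousWithinAt)
      measurableSet_Ioi
  have key := LL_unique (f := fun u : ℝ => ((Kf u : ℂ) + Wz u) - Ec a b (-(1 / 6)) u)
    (M := (M1 + M2) + M3) ((Kf_meas.add mW).sub mE) (fun u hu => ?_) (fun u hu => ?_) (fun y => ?_)
  · intro u hu
    exact sub_eq_zero.1 (key u hu)
  · refine (norm_sub_le _ _).trans (add_le_add ((norm_add_le _ _).trans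
      (add_le_add (bK u hu) (Wz_le hu.le))) (Ec_le _ _ _ hu.le))
  · exact ((Complex.continuous_ofReal.continuousAt.comp (Kf_cont hu)).add (Wz_cont hu)).sub
      (Ec_cont _ _ _ hu)
  · set p : ℂ := 1 + y * I with hp
    have hpre : p.re = 1 := by simp [hp]
    have hp1 : 0 < p.re := by rw [hpre]; norm_num
    have iK : IntegrableOn (fun u : ℝ => (Kf u : ℂ) * cexp (-(p * u))) (Ioi 0) :=
      LL_int (f := fun u : ℝ => (Kf u : ℂ)) Kf_meas bK hp1
    have iW : IntegrableOn (fun u : ℝ => Wz u * cexp (-(p * u))) (Ioi 0) :=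
      LL_int mW (fun u hu => Wz_le hu.le) hp1
    have iKW : IntegrableOn (fun u : ℝ => ((Kf u : ℂ) + Wz u) * cexp (-(p * u))) (Ioi 0) := by
      refine (iK.add iW).congr (Eventually.of_forall fun u => ?_)
      simp only [Pi.add_apply]
      ring
    have iE : IntegrableOn (fun u : ℝ => Ec a b (-(1 / 6)) u * cexp (-(p * u))) (Ioi 0) :=
      LL_int mE (fun u hu => Ec_le _ _ _ hu.le) hp1
    rw [LL_sub iKW iE, LL_add iK iW, LL_Kf hp1, LT_eq_Gh_right hp1, gh_eq hp1,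
      LL_Wz_eq hpre.ge, LL_Ec _ _ _ hp1]
    -- the logarithmic derivative
    have hs1 : 1 < (p + 1).re := by rw [Complex.add_re, hpre]; norm_num
    have hRg : (p + 1 / 2) ∈ Rg := by
      have hre : (p + 1 / 2).re = 3 / 2 := by
        rw [Complex.add_re, hpre]; norm_num
      refine ⟨fun h => ?_, fun h => ?_, Or.inl (by rw [hre]; norm_num)⟩
      · rw [h] at hre; norm_num at hre
      · rw [h] at hre; norm_num at hre
    have e1 : 1 / 2 + (p + 1 / 2) = p + 1 := by ring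
    have hz0 : riemannZeta (1 / 2 + (p + 1 / 2)) ≠ 0 := by
      rw [e1]; exact riemannZeta_ne_zero_of_one_le_re hs1.le
    rw [ZZ_eq hRg hz0, e1, yl_eq hpre.ge]
    have hp0 : p ≠ 0 := by intro h; rw [h] at hpre; simp at hpre
    have hpp : p + 1 ≠ 0 := by
      intro h0
      have := congrArg Complex.re h0
      rw [Complex.add_re, hpre] at this
      norm_num at this
    have hp3 : p + 3 ≠ 0 := by
      intro h0
      have := congrArg Complex.re h0
      rw [Complex.add_re, hpre] at this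
      norm_num at this
    rw [ha, hb, ← hA0, ← hlp]
    generalize deriv riemannZeta (p + 1) / riemannZeta (p + 1) = D
    generalize (∑' n, H370.DG.gd n ((p + 1) / 2)) = G
    generalize (Kf 0 : ℂ) = K0
    field_simp
    ring

/-- the explicit function is a constant up to an exponentially small term -/
theorem Ec_form (a b c : ℂ) : ∃ A : ℂ, ∃ B : ℝ, 0 ≤ B ∧ ∀ u : ℝ, 0 ≤ u →
    ‖Ec a b c u - A‖ ≤ B * Real.exp (-u) := by
  have sal : Summable (fun n => (al n : ℂ)) := by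
    refine Summable.of_norm_bounded (H370.DG.summable_inv_sq.mul_left 2) fun n => ?_
    rw [Complex.norm_real, Real.norm_eq_abs, mul_one_div]
    exact al_le n
  have sbe : Summable (fun n => (be n : ℂ)) := by
    refine Summable.of_norm_bounded H370.DG.summable_inv_sq fun n => ?_
    rw [Complex.norm_real, Real.norm_eq_abs]
    exact be_le n
  have sga : Summable ga := Summable.of_nonneg_of_le ga_nonneg ga_le H370.DG.summable_inv_sq
  refine ⟨a - 1 / 2 * ∑' n, (al n : ℂ),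
    ‖-b + 1 / 2 * ∑' n, (be n : ℂ)‖ + ‖c‖ + ∑' n, ga n, ?_, fun u hu => ?_⟩
  · have : 0 ≤ ∑' n, ga n := tsum_nonneg ga_nonneg
    positivity
  have hex : Real.exp (-u) ≤ 1 := by rw [Real.exp_le_one_iff]; linarith
  have e1 : ‖cexp (-(1 * (u : ℂ)))‖ = Real.exp (-u) := by
    rw [norm_exp, Complex.one_re, one_mul]
  have e3 : ‖cexp (-(3 * (u : ℂ)))‖ ≤ Real.exp (-u) := by
    rw [norm_exp]
    apply Real.exp_le_exp.2
    have : (3 : ℂ).re = 3 := rfl
    rw [this]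
    linarith
  have hgt : ∀ n : ℕ, ‖(ga n : ℂ) * cexp (-((2 * n + 5) * u))‖ ≤ ga n * Real.exp (-u) := by
    intro n
    rw [norm_mul, Complex.norm_real, Real.norm_of_nonneg (ga_nonneg n), norm_exp]
    refine mul_le_mul_of_nonneg_left (Real.exp_le_exp.2 ?_) (ga_nonneg n)
    have h1 : ((2 : ℂ) * n + 5).re = 2 * n + 5 := by simp
    rw [h1]
    have hn : (0 : ℝ) ≤ n := Nat.cast_nonneg n
    nlinarith [mul_nonneg hn hu]
  have sg : Summable (fun n : ℕ => (ga n : ℂ) * cexp (-((2 * n + 5) * u))) :=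
    Summable.of_norm_bounded (sga.mul_right _) hgt
  have hT : ∑' n, Tn n u = (∑' n, (al n : ℂ)) - (∑' n, (be n : ℂ)) * cexp (-(1 * u)) -
      ∑' n : ℕ, (ga n : ℂ) * cexp (-((2 * n + 5) * u)) := by
    unfold Tn
    rw [(sal.sub (sbe.mul_right _)).tsum_sub sg, sal.tsum_sub (sbe.mul_right _), tsum_mul_right]
  have hG : ‖∑' n : ℕ, (ga n : ℂ) * cexp (-((2 * n + 5) * u))‖ ≤ (∑' n, ga n) * Real.exp (-u) :=
    tsum_of_norm_bounded (sga.hasSum.mul_right _) hgt
  unfold Ec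
  rw [hT]
  have e4 : a - b * cexp (-(1 * u)) - c * cexp (-(3 * u)) - 1 / 2 * ((∑' n, (al n : ℂ)) -
      (∑' n, (be n : ℂ)) * cexp (-(1 * u)) - ∑' n : ℕ, (ga n : ℂ) * cexp (-((2 * n + 5) * u))) -
      (a - 1 / 2 * ∑' n, (al n : ℂ)) =
      (-b + 1 / 2 * ∑' n, (be n : ℂ)) * cexp (-(1 * u)) - c * cexp (-(3 * u)) +
        1 / 2 * ∑' n : ℕ, (ga n : ℂ) * cexp (-((2 * n + 5) * u)) := by ring
  rw [e4]
  have h2 : ‖(1 / 2 : ℂ)‖ = 1 / 2 := by norm_num
  calc _ ≤ ‖(-b + 1 / 2 * ∑' n, (be n : ℂ)) * cexp (-(1 * u)) - c * cexp (-(3 * u))‖ +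
        ‖1 / 2 * ∑' n : ℕ, (ga n : ℂ) * cexp (-((2 * n + 5) * u))‖ := norm_add_le _ _
    _ ≤ (‖(-b + 1 / 2 * ∑' n, (be n : ℂ)) * cexp (-(1 * u))‖ + ‖c * cexp (-(3 * u))‖) +
        ‖1 / 2 * ∑' n : ℕ, (ga n : ℂ) * cexp (-((2 * n + 5) * u))‖ := by
        gcongr
        exact norm_sub_le _ _
    _ ≤ (‖-b + 1 / 2 * ∑' n, (be n : ℂ)‖ * Real.exp (-u) + ‖c‖ * Real.exp (-u)) +
        (∑' n, ga n) * Real.exp (-u) := by
        refine add_le_add (add_le_add ?_ ?_) ?_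
        · rw [norm_mul, e1]
        · rw [norm_mul]
          exact mul_le_mul_of_nonneg_left e3 (norm_nonneg _)
        · rw [norm_mul, h2]
          have := norm_nonneg (∑' n : ℕ, (ga n : ℂ) * cexp (-((2 * n + 5) * u)))
          linarith
    _ = _ := by ring

theorem expl : Q204.NA.SExpl := by
  obtain ⟨a, b, c, h⟩ := main_eq
  obtain ⟨A, B, hB, hE⟩ := Ec_form a b c
  have hA : A = 0 := by
    have h1 : Tendsto (fun u : ℝ => (Kf u : ℂ) + Wz u) atTop (𝓝 (0 + 0)) := by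
      refine Tendsto.add ?_ Wz_lim
      have h0 : Tendsto (fun u : ℝ => (Kf u : ℂ)) atTop (𝓝 ((0 : ℝ) : ℂ)) :=
        (Complex.continuous_ofReal.tendsto 0).comp Kf_lim
      rwa [Complex.ofReal_zero] at h0
    have h2 : Tendsto (fun u : ℝ => Ec a b c u) atTop (𝓝 A) := by
      rw [tendsto_iff_norm_sub_tendsto_zero]
      have h3 : Tendsto (fun u : ℝ => B * Real.exp (-u)) atTop (𝓝 0) := by
        have := Real.tendsto_exp_neg_atTop_nhds_zero.const_mul B
        rwa [mul_zero] at this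
      refine squeeze_zero' (Eventually.of_forall fun u => norm_nonneg _) ?_ h3
      filter_upwards [eventually_ge_atTop 0] with u hu
      exact hE u hu
    have h4 : Tendsto (fun u : ℝ => (Kf u : ℂ) + Wz u) atTop (𝓝 A) := by
      refine h2.congr' ?_
      filter_upwards [eventually_gt_atTop 0] with u hu
      exact (h u hu).symm
    have := tendsto_nhds_unique h4 h1
    simpa using this
  refine ⟨B, fun u hu => ?_⟩
  have e1 : ∑' ρ : Zt, (mu ρ : ℂ) * Complex.exp (((ρ : ℂ) - 1) * u) / ((ρ : ℂ) * (1 - (ρ : ℂ))) =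
      Wz u := by
    unfold Wz wt
    refine tsum_congr fun ρ => ?_
    rw [div_mul_eq_mul_div]
    congr 3
    ring
  rw [e1]
  have e2 : ((∫ v in Set.Ioi u, eP v : ℝ) : ℂ) = (Kf u : ℂ) := rfl
  rw [e2, h u (by linarith)]
  have h5 := hE u (by linarith)
  rw [hA, sub_zero] at h5
  refine h5.trans (mul_le_mul_of_nonneg_left (Real.exp_le_exp.2 ?_) hB)
  linarith

end Pool.Agent.Q296.NA
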